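import Pool.Agent.W34.GB.Stm

/-!
# The local determinants
-/

set_option autoImplicit false

open Polynomial Pool.Agent.H337R2

namespace Pool.Agent.W762.GZ

open Pool.Agent.W34.GB

noncomputable section

/-- the first three coefficients -/
def c3 (f : PowerSeries ℚ) (a b c : ℚ) : Prop :=
  PowerSeries.coeff 0 f = a ∧ PowerSeries.coeff 1 f = b ∧ PowerSeries.coeff 2 f = c

theorem anti1 : Finset.HasAntidiagonal.antidiagonal 1 = ({(0, 1), (1, 0)} : Finset (ℕ × ℕ)) := by decide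
theorem anti2 : Finset.HasAntidiagonal.antidiagonal 2 = ({(0, 2), (1, 1), (2, 0)} : Finset (ℕ × ℕ)) := by decide

theorem c3_mul {f g : PowerSeries ℚ} {a b c a' b' c' : ℚ} (h : c3 f a b c) (h' : c3 g a' b' c') :
    c3 (f * g) (a * a') (a * b' + b * a') (a * c' + b * b' + c * a') := by
  obtain ⟨h0, h1, h2⟩ := h
  obtain ⟨k0, k1, k2⟩ := h'
  refine ⟨?_, ?_, ?_⟩
  · rw [PowerSeries.coeff_mul]
    simp [← h0, ← k0]
  · rw [PowerSeries.coeff_mul, anti1, Finset.sum_insert (by decide), Finset.sum_singleton]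
    simp only [h0, h1, k0, k1]
  · rw [PowerSeries.coeff_mul, anti2, Finset.sum_insert (by decide), Finset.sum_insert (by decide),
      Finset.sum_singleton]
    simp only [h0, h1, h2, k0, k1, k2]
    ring

theorem c3_one : c3 (1 : PowerSeries ℚ) 1 0 0 := by
  refine ⟨?_, ?_, ?_⟩ <;> simp [PowerSeries.coeff_one]

theorem c3_iv (a : ℚ) : c3 (iv a) (1 / a) (-1 / a ^ 2) (1 / a ^ 3) := by
  unfold c3 iv
  refine ⟨?_, ?_, ?_⟩ <;> simp

theorem c3_lin (a : ℚ) : c3 (PowerSeries.X + PowerSeries.C a) a 1 0 := by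
  refine ⟨?_, ?_, ?_⟩
  · simp
  · simp [PowerSeries.coeff_X]
  · simp [PowerSeries.coeff_X]

theorem iv_one : c3 (iv (1 : ℚ) ^ 3) 1 (-3) 6 := by
  have h := c3_mul (c3_mul (c3_iv 1) (c3_iv 1)) (c3_iv 1)
  rw [pow_succ, pow_succ, pow_one]
  convert h using 1 <;> norm_num

theorem iv_neg_one : c3 (iv (-1 : ℚ) ^ 3) (-1) (-3) (-6) := by
  have h := c3_mul (c3_mul (c3_iv (-1)) (c3_iv (-1))) (c3_iv (-1))
  rw [pow_succ, pow_succ, pow_one]
  convert h using 1 <;> norm_num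

theorem lin_pow (a : ℚ) : ∀ e : ℕ, c3 ((PowerSeries.X + PowerSeries.C a) ^ e) (a ^ e)
    (e * a ^ (e - 1)) (e * (e - 1) / 2 * a ^ (e - 2)) := by
  intro e
  induction e with
  | zero =>
    rw [pow_zero]
    convert c3_one using 1 <;> simp
  | succ e ih =>
    have h := c3_mul ih (c3_lin a)
    have g1 : ((e + 1 : ℕ) : ℚ) * a ^ (e + 1 - 1) = a ^ e * 1 + (e : ℚ) * a ^ (e - 1) * a := by
      rcases e with _ | e
      · simp
      · simp only [Nat.add_sub_cancel]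
        push_cast
        ring
    have g2 : ((e + 1 : ℕ) : ℚ) * (((e + 1 : ℕ) : ℚ) - 1) / 2 * a ^ (e + 1 - 2) =
        a ^ e * 0 + (e : ℚ) * a ^ (e - 1) * 1 + (e : ℚ) * ((e : ℚ) - 1) / 2 * a ^ (e - 2) * a := by
      rcases e with _ | _ | e
      · simp
      · norm_num
      · have h1 : e + 1 + 1 + 1 - 2 = e + 1 := by omega
        have h2 : e + 1 + 1 - 2 = e := by omega
        have h3 : e + 1 + 1 - 1 = e + 1 := by omega
        rw [h1, h2, h3]
        push_cast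
        ring
    rw [pow_succ, pow_succ a e, g1, g2]
    exact h

theorem ser0 (e : ℕ) : ser 0 e = iv (1 : ℚ) ^ 3 * (PowerSeries.X + PowerSeries.C (0 : ℚ)) ^ e := by
  unfold ser
  have : (Finset.range 2).erase 0 = {1} := by decide
  rw [this, Finset.prod_singleton]
  norm_num

theorem ser1 (e : ℕ) : ser 1 e = iv (-1 : ℚ) ^ 3 * (PowerSeries.X + PowerSeries.C (-1 : ℚ)) ^ e := by
  unfold ser
  have : (Finset.range 2).erase 1 = {0} := by decide
  rw [this, Finset.prod_singleton]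
  norm_num

theorem s0 (e : ℕ) : c3 (ser 0 e) (1 * 0 ^ e) (1 * (e * 0 ^ (e - 1)) + (-3) * 0 ^ e)
    (1 * (e * (e - 1) / 2 * 0 ^ (e - 2)) + (-3) * (e * 0 ^ (e - 1)) + 6 * 0 ^ e) := by
  rw [ser0]
  exact c3_mul iv_one (lin_pow 0 e)

theorem s1 (e : ℕ) : c3 (ser 1 e) ((-1) * (-1) ^ e)
    ((-1) * (e * (-1) ^ (e - 1)) + (-3) * (-1) ^ e)
    ((-1) * (e * (e - 1) / 2 * (-1) ^ (e - 2)) + (-3) * (e * (-1) ^ (e - 1)) + (-6) * (-1) ^ e) := by
  rw [ser1]
  exact c3_mul iv_neg_one (lin_pow (-1) e)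

theorem Fm0 (m0 a b c : ℕ) (w : ℚ) : Fm m0 a b c w 0 =
    -(fl m0 a b c w 3 0 - 3 * fl m0 a b c w 2 0 + 6 * fl m0 a b c w 1 0
      - fl m0 a b c w 3 1 - 3 * fl m0 a b c w 2 1 - 6 * fl m0 a b c w 1 1) := by
  unfold Fm
  rw [Finset.sum_range_succ, Finset.sum_range_one, (s0 0).1, (s0 0).2.1, (s0 0).2.2,
    (s1 0).1, (s1 0).2.1, (s1 0).2.2]
  norm_num
  ring

theorem Fm1 (m0 a b c : ℕ) (w : ℚ) : Fm m0 a b c w 1 =
    -(fl m0 a b c w 2 0 - 3 * fl m0 a b c w 1 0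
      + fl m0 a b c w 3 1 + 2 * fl m0 a b c w 2 1 + 3 * fl m0 a b c w 1 1) := by
  unfold Fm
  rw [Finset.sum_range_succ, Finset.sum_range_one, (s0 1).1, (s0 1).2.1, (s0 1).2.2,
    (s1 1).1, (s1 1).2.1, (s1 1).2.2]
  norm_num
  ring

theorem Fm2 (m0 a b c : ℕ) (w : ℚ) : Fm m0 a b c w 2 =
    -(fl m0 a b c w 1 0
      - fl m0 a b c w 3 1 - fl m0 a b c w 2 1 - fl m0 a b c w 1 1) := by
  unfold Fm
  rw [Finset.sum_range_succ, Finset.sum_range_one, (s0 2).1, (s0 2).2.1, (s0 2).2.2,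
    (s1 2).1, (s1 2).2.1, (s1 2).2.2]
  norm_num
  ring

theorem Fm3 (m0 a b c : ℕ) (w : ℚ) : Fm m0 a b c w 3 = -(fl m0 a b c w 3 1) := by
  unfold Fm
  rw [Finset.sum_range_succ, Finset.sum_range_one, (s0 3).1, (s0 3).2.1, (s0 3).2.2,
    (s1 3).1, (s1 3).2.1, (s1 3).2.2]
  norm_num

theorem Fm4 (m0 a b c : ℕ) (w : ℚ) : Fm m0 a b c w 4 =
    -(-fl m0 a b c w 3 1 + fl m0 a b c w 2 1) := by
  unfold Fm
  rw [Finset.sum_range_succ, Finset.sum_range_one, (s0 4).1, (s0 4).2.1, (s0 4).2.2,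
    (s1 4).1, (s1 4).2.1, (s1 4).2.2]
  norm_num

theorem Dl_eq (m0 a b c : ℕ) (w f0 f1 f2 f3 f4 : ℚ) (h0 : Fm m0 a b c w 0 = f0)
    (h1 : Fm m0 a b c w 1 = f1) (h2 : Fm m0 a b c w 2 = f2) (h3 : Fm m0 a b c w 3 = f3)
    (h4 : Fm m0 a b c w 4 = f4) :
    Dl m0 a b c w = f0 * (f2 * f4 - f3 * f3) - f1 * (f1 * f4 - f3 * f2)
      + f2 * (f1 * f3 - f2 * f2) := by
  unfold Dl
  rw [Matrix.det_fin_three]
  simp only [Matrix.of_apply, Fin.val_zero, Fin.val_one, Fin.val_two, Nat.reduceAdd]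
  rw [h0, h1, h2, h3, h4]
  ring

theorem ico1 : (Finset.Ico 1 1 : Finset ℕ) = ∅ := by decide
theorem ico2 : (Finset.Ico 1 2 : Finset ℕ) = {1} := by decide
theorem ico3 : (Finset.Ico 1 3 : Finset ℕ) = {1, 2} := by decide

theorem D1000 (w : ℚ) : Dl 1 0 0 0 w =
    (-27) + (-27) * w + (-9) * w ^ 2 + (-1) * w ^ 3 := by
  rw [Dl_eq 1 0 0 0 w (126 + 22 * w) ((-102) + (-16) * w) (81 + 11 * w) ((-63) + (-7) * w) (48 + 4 * w)]
  · ring
  all_goals
    simp only [Fm0, Fm1, Fm2, Fm3, Fm4, fl, Nat.reduceAdd, ico1, ico2, ico3,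
      Finset.sum_range_succ, Finset.sum_range_zero, Finset.sum_singleton, Finset.sum_empty,
      Finset.sum_pair (show (1 : ℕ) ≠ 2 by decide)]
    norm_num
    try ring

theorem D1100 (w : ℚ) : Dl 1 1 0 0 w =
    (39897 / 5) + (15993 / 5) * w + (2483 / 5) * w ^ 2 + (-1) * w ^ 3 := by
  rw [Dl_eq 1 1 0 0 w ((11654 / 125) + 22 * w) ((-13774 / 125) + (-16) * w) ((9869 / 125) + 11 * w) ((-7939 / 125) + (-7) * w) ((5984 / 125) + 4 * w)]
  · ring
  all_goals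
    simp only [Fm0, Fm1, Fm2, Fm3, Fm4, fl, Nat.reduceAdd, ico1, ico2, ico3,
      Finset.sum_range_succ, Finset.sum_range_zero, Finset.sum_singleton, Finset.sum_empty,
      Finset.sum_pair (show (1 : ℕ) ≠ 2 by decide)]
    norm_num
    try ring

theorem D1110 (w : ℚ) : Dl 1 1 1 0 w =
    (39897 / 5) + (6390289 / 1125) * w + (4058809 / 3375) * w ^ 2 + 87 * w ^ 3 := by
  rw [Dl_eq 1 1 1 0 w ((11654 / 125) + (530 / 27) * w) ((-13774 / 125) + (-464 / 27) * w) ((9869 / 125) + (281 / 27) * w) ((-7939 / 125) + (-197 / 27) * w) ((5984 / 125) + (104 / 27) * w)]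
  · ring
  all_goals
    simp only [Fm0, Fm1, Fm2, Fm3, Fm4, fl, Nat.reduceAdd, ico1, ico2, ico3,
      Finset.sum_range_succ, Finset.sum_range_zero, Finset.sum_singleton, Finset.sum_empty,
      Finset.sum_pair (show (1 : ℕ) ≠ 2 by decide)]
    norm_num
    try ring

theorem D1111 (w : ℚ) : Dl 1 1 1 1 w =
    (1672623 / 250) + (511962 / 125) * w + (220693 / 250) * w ^ 2 + (1696 / 27) * w ^ 3 := by
  rw [Dl_eq 1 1 1 1 w ((93357 / 1000) + (4267 / 216) * w) ((-110067 / 1000) + (-3685 / 216) * w) ((79077 / 1000) + (2275 / 216) * w) ((-63387 / 1000) + (-1549 / 216) * w) ((47997 / 1000) + (859 / 216) * w)]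
  · ring
  all_goals
    simp only [Fm0, Fm1, Fm2, Fm3, Fm4, fl, Nat.reduceAdd, ico1, ico2, ico3,
      Finset.sum_range_succ, Finset.sum_range_zero, Finset.sum_singleton, Finset.sum_empty,
      Finset.sum_pair (show (1 : ℕ) ≠ 2 by decide)]
    norm_num
    try ring

theorem D3000 (w : ℚ) : Dl 3 0 0 0 w =
    (-1 / 27) + (-1 / 3) * w + (-1) * w ^ 2 + (-1) * w ^ 3 := by
  rw [Dl_eq 3 0 0 0 w ((154 / 27) + 22 * w) ((-106 / 27) + (-16) * w) ((67 / 27) + 11 * w) ((-37 / 27) + (-7) * w) ((16 / 27) + 4 * w)]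
  · ring
  all_goals
    simp only [Fm0, Fm1, Fm2, Fm3, Fm4, fl, Nat.reduceAdd, ico1, ico2, ico3,
      Finset.sum_range_succ, Finset.sum_range_zero, Finset.sum_singleton, Finset.sum_empty,
      Finset.sum_pair (show (1 : ℕ) ≠ 2 by decide)]
    norm_num
    try ring

theorem D3010 (w : ℚ) : Dl 3 0 1 0 w =
    (-1 / 27) + (191 / 27) * w + (439 / 9) * w ^ 2 + 87 * w ^ 3 := by
  rw [Dl_eq 3 0 1 0 w ((154 / 27) + (530 / 27) * w) ((-106 / 27) + (-464 / 27) * w) ((67 / 27) + (281 / 27) * w) ((-37 / 27) + (-197 / 27) * w) ((16 / 27) + (104 / 27) * w)]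
  · ring
  all_goals
    simp only [Fm0, Fm1, Fm2, Fm3, Fm4, fl, Nat.reduceAdd, ico1, ico2, ico3,
      Finset.sum_range_succ, Finset.sum_range_zero, Finset.sum_singleton, Finset.sum_empty,
      Finset.sum_pair (show (1 : ℕ) ≠ 2 by decide)]
    norm_num
    try ring

theorem D3011 (w : ℚ) : Dl 3 0 1 1 w =
    (-83 / 54) + (-482 / 81) * w + (2117 / 162) * w ^ 2 + (1696 / 27) * w ^ 3 := by
  rw [Dl_eq 3 0 1 1 w ((1259 / 216) + (4267 / 216) * w) ((-821 / 216) + (-3685 / 216) * w) ((563 / 216) + (2275 / 216) * w) ((-269 / 216) + (-1549 / 216) * w) ((155 / 216) + (859 / 216) * w)]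
  · ring
  all_goals
    simp only [Fm0, Fm1, Fm2, Fm3, Fm4, fl, Nat.reduceAdd, ico1, ico2, ico3,
      Finset.sum_range_succ, Finset.sum_range_zero, Finset.sum_singleton, Finset.sum_empty,
      Finset.sum_pair (show (1 : ℕ) ≠ 2 by decide)]
    norm_num
    try ring

theorem D3111 (w : ℚ) : Dl 3 1 1 1 w =
    (68029 / 55566) + (10226014 / 750141) * w + (8428661 / 166698) * w ^ 2 + (1696 / 27) * w ^ 3 := by
  rw [Dl_eq 3 1 1 1 w ((44341 / 8232) + (4267 / 216) * w) ((-306179 / 74088) + (-3685 / 216) * w) ((174677 / 74088) + (2275 / 216) * w) ((-106091 / 74088) + (-1549 / 216) * w) ((42797 / 74088) + (859 / 216) * w)]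
  · ring
  all_goals
    simp only [Fm0, Fm1, Fm2, Fm3, Fm4, fl, Nat.reduceAdd, ico1, ico2, ico3,
      Finset.sum_range_succ, Finset.sum_range_zero, Finset.sum_singleton, Finset.sum_empty,
      Finset.sum_pair (show (1 : ℕ) ≠ 2 by decide)]
    norm_num
    try ring

/-- a rational number is not a root of a cubic form without zeros modulo a prime -/
theorem no_root (l : ℕ) (hl : 1 < l) (c0 c1 c2 c3 : ℤ)
    (hd : ∀ a b : ZMod l, (c0 : ZMod l) * b ^ 3 + c1 * (a * b ^ 2) + c2 * (a ^ 2 * b) + c3 * a ^ 3 = 0 →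
      a = 0 ∧ b = 0) (w : ℚ) : (c0 : ℚ) + c1 * w + c2 * w ^ 2 + c3 * w ^ 3 ≠ 0 := by
  intro h
  have hden : (w.den : ℚ) ≠ 0 := by exact_mod_cast w.den_nz
  have hw : w * w.den = w.num := Rat.mul_den_eq_num w
  have h1 : (c0 : ℚ) * (w.den : ℚ) ^ 3 + c1 * ((w.num : ℚ) * (w.den : ℚ) ^ 2)
      + c2 * ((w.num : ℚ) ^ 2 * (w.den : ℚ)) + c3 * (w.num : ℚ) ^ 3 = 0 := by
    rw [← hw]
    have : (c0 : ℚ) * (w.den : ℚ) ^ 3 + c1 * ((w * w.den) * (w.den : ℚ) ^ 2)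
      + c2 * ((w * w.den) ^ 2 * (w.den : ℚ)) + c3 * (w * w.den) ^ 3 =
      ((c0 : ℚ) + c1 * w + c2 * w ^ 2 + c3 * w ^ 3) * (w.den : ℚ) ^ 3 := by ring
    rw [this, h, zero_mul]
  have h2 : c0 * (w.den : ℤ) ^ 3 + c1 * (w.num * (w.den : ℤ) ^ 2)
      + c2 * (w.num ^ 2 * (w.den : ℤ)) + c3 * w.num ^ 3 = 0 := by
    exact_mod_cast h1
  have h3 : (c0 : ZMod l) * ((w.den : ℤ) : ZMod l) ^ 3 + c1 * ((w.num : ZMod l) * ((w.den : ℤ) : ZMod l) ^ 2)
      + c2 * ((w.num : ZMod l) ^ 2 * ((w.den : ℤ) : ZMod l)) + c3 * (w.num : ZMod l) ^ 3 = 0 := by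
    have := congrArg (fun z : ℤ => (z : ZMod l)) h2
    push_cast at this
    push_cast
    exact this
  obtain ⟨h4, h5⟩ := hd _ _ h3
  rw [ZMod.intCast_zmod_eq_zero_iff_dvd] at h4 h5
  have h6 : (l : ℤ) ∣ 1 := by
    have hc : IsCoprime w.num (w.den : ℤ) := by
      rw [Int.isCoprime_iff_gcd_eq_one]
      have := w.reduced
      rwa [Int.gcd, Int.natAbs_natCast]
    obtain ⟨x, y, hxy⟩ := hc
    rw [← hxy]
    exact dvd_add (Dvd.dvd.mul_left h4 x) (Dvd.dvd.mul_left h5 y)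
  have h7 : (l : ℤ) ≤ 1 := Int.le_of_dvd one_pos h6
  omega

theorem n5 : N5s := by
  refine ⟨fun w hw => ⟨?_, ?_, ?_, ?_⟩, ?_, ?_, ?_, ?_⟩
  · rw [D1000]
    have h1 : w + 3 ≠ 0 := fun h => hw (by linarith)
    have h2 : (-27 : ℚ) + (-27) * w + (-9) * w ^ 2 + (-1) * w ^ 3 = -(w + 3) ^ 3 := by ring
    rw [h2]
    exact neg_ne_zero.2 (pow_ne_zero 3 h1)
  · rw [D1100]
    intro h
    apply no_root 7 (by norm_num) (39897) (15993) (2483) (-5) (by decide +kernel) w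
    push_cast
    linear_combination 5 * h
  · rw [D1110]
    intro h
    apply no_root 37 (by norm_num) (26930475) (19170867) (4058809) (293625) (by decide +kernel) w
    push_cast
    linear_combination 3375 * h
  · rw [D1111]
    intro h
    apply no_root 7 (by norm_num) (45160821) (27645948) (5958711) (424000) (by decide +kernel) w
    push_cast
    linear_combination 6750 * h
  · rw [D3000]
    norm_num
  · rw [D3010]
    norm_num
  · rw [D3011]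
    norm_num
  · rw [D3111]
    norm_num

end

end Pool.Agent.W762.GZ
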